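import Pool.Agent.TH703.HU.Stm
import Pool.Agent.TH703.Cone.Trans

/-!
Relative isoperimetric inequality for small sets in a convex body (job 4306 of helper703).
-/

set_option autoImplicit false

open MeasureTheory Set Metric
open scoped ENNReal

namespace Pool.Agent.TH993.HU

section gen

variable {E : Type*} [NormedAddCommGroup E] [InnerProductSpace ℝ E] [FiniteDimensional ℝ E]
  [MeasurableSpace E] [BorelSpace E]

/-- cone condition -/
lemma cone {Ω : Set E} (hc : Convex ℝ Ω) {D : ℝ} (hD : 0 < D)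
    (hdist : ∀ x ∈ Ω, ∀ y ∈ Ω, dist x y ≤ D) {z : E} {r0 : ℝ} (hz : ball z r0 ⊆ Ω) {x : E}
    (hx : x ∈ Ω) {ρ : ℝ} (h0 : 0 ≤ ρ) (h1 : ρ ≤ D) :
    ENNReal.ofReal ((ρ / D) ^ (Module.finrank ℝ E)) * volume (ball z r0) ≤
      volume (closedBall x ρ ∩ Ω) := by
  have hl0 : 0 ≤ ρ / D := by positivity
  have hl1 : ρ / D ≤ 1 := (div_le_one hD).2 h1
  have h2 := Measure.addHaar_image_homothety (μ := (volume : Measure E)) x (ρ / D) (ball z r0)
  rw [abs_of_nonneg (pow_nonneg hl0 _)] at h2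
  rw [← h2]
  refine measure_mono ?_
  rintro _ ⟨y, hy, rfl⟩
  have hyΩ := hz hy
  have e1 : AffineMap.homothety x (ρ / D) y = x + (ρ / D) • (y - x) := by
    rw [AffineMap.homothety_apply, vsub_eq_sub, vadd_eq_add, add_comm]
  rw [e1]
  refine ⟨?_, hc.add_smul_sub_mem hx hyΩ ⟨hl0, hl1⟩⟩
  rw [mem_closedBall, dist_eq_norm, add_sub_cancel_left, norm_smul, Real.norm_of_nonneg hl0,
    ← dist_eq_norm]
  calc ρ / D * dist y x ≤ ρ / D * D := mul_le_mul_of_nonneg_left (hdist y hyΩ x hx) hl0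
    _ = ρ := div_mul_cancel₀ _ hD.ne'

/-- double counting -/
lemma count {Ω G : Set E} {P ρ : ℝ} (hΩ : IsOpen Ω) (hc : Convex ℝ Ω)
    (hb : Bornology.IsBounded Ω) (hG : MeasurableSet G) (hGΩ : G ⊆ Ω) (hP : 0 ≤ P)
    (hPLE : Pool.Agent.TH703.Cone.PLE Ω G P) :
    ∫⁻ x in G, volume (closedBall x ρ ∩ (Ω \ G)) ≤
      volume (closedBall (0 : E) ρ) * ENNReal.ofReal (ρ * P) := by
  have : ProperSpace E := FiniteDimensional.proper ℝ E
  have : SecondCountableTopology E := secondCountable_of_proper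
  let Q : Set (E × E) := {p | p.1 ∈ G ∧ p.2 ∈ closedBall (0 : E) ρ ∧ p.1 + p.2 ∈ Ω \ G}
  have hQ : MeasurableSet Q := by
    refine (measurable_fst hG).inter ((measurable_snd measurableSet_closedBall).inter ?_)
    exact ((measurable_fst.add measurable_snd) : Measurable fun p : E × E => p.1 + p.2)
      (hΩ.measurableSet.diff hG)
  have e1 : (volume.prod volume) Q = ∫⁻ x in G, volume (closedBall x ρ ∩ (Ω \ G)) := by
    rw [Measure.prod_apply hQ, ← lintegral_indicator hG]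
    congr 1
    ext x
    by_cases hx : x ∈ G
    · rw [indicator_of_mem hx]
      have : Prod.mk x ⁻¹' Q = (fun h => h + x) ⁻¹' (closedBall x ρ ∩ (Ω \ G)) := by
        ext h
        simp only [Q, mem_preimage, mem_ofPred_eq, mem_inter_iff, hx, true_and]
        rw [mem_closedBall, mem_closedBall, dist_zero_right, dist_eq_norm, add_sub_cancel_right,
          add_comm h x]
      rw [this, measure_preimage_add_right]
    · rw [indicator_of_notMem hx]
      have : Prod.mk x ⁻¹' Q = ∅ := by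
        ext h
        simp only [Q, mem_preimage, mem_ofPred_eq, mem_empty_iff_false, iff_false]
        exact fun h2 => hx h2.1
      rw [this, measure_empty]
  rw [← e1, Measure.prod_apply_symm hQ]
  calc ∫⁻ h, volume ((fun x => (x, h)) ⁻¹' Q)
      ≤ ∫⁻ h, (closedBall (0 : E) ρ).indicator (fun _ => ENNReal.ofReal (ρ * P)) h := by
        refine lintegral_mono fun h => ?_
        by_cases hh : h ∈ closedBall (0 : E) ρ
        · rw [indicator_of_mem hh]
          rw [mem_closedBall, dist_zero_right] at hh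
          have h2 : (fun x => (x, h)) ⁻¹' Q ⊆ {x | x ∈ G ∧ x + h ∈ Ω \ G} := by
            rintro x ⟨hx1, -, hx3⟩
            exact ⟨hx1, hx3⟩
          refine (measure_mono h2).trans
            ((Pool.Agent.TH703.Cone.t1 E Ω G P h hΩ hc hb hG hGΩ hP hPLE).trans ?_)
          apply ENNReal.ofReal_le_ofReal
          gcongr
        · rw [indicator_of_notMem hh]
          have : (fun x => (x, h)) ⁻¹' Q = ∅ := by
            ext x
            simp only [Q, mem_preimage, mem_ofPred_eq, mem_empty_iff_false, iff_false]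
            exact fun h2 => hh h2.2.1
          rw [this, measure_empty]
    _ = _ := by
        rw [lintegral_indicator measurableSet_closedBall, setLIntegral_const, mul_comm]

/-- the basic inequality -/
lemma basic {Ω G : Set E} {P ρ : ℝ} (hΩ : IsOpen Ω) (hc : Convex ℝ Ω)
    (hb : Bornology.IsBounded Ω) (hG : MeasurableSet G) (hGΩ : G ⊆ Ω) (hP : 0 ≤ P)
    (hPLE : Pool.Agent.TH703.Cone.PLE Ω G P) {D : ℝ} (hD : 0 < D)
    (hdist : ∀ x ∈ Ω, ∀ y ∈ Ω, dist x y ≤ D) {z : E} {r0 : ℝ} (hz : ball z r0 ⊆ Ω)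
    (h0 : 0 ≤ ρ) (h1 : ρ ≤ D) :
    (ENNReal.ofReal ((ρ / D) ^ (Module.finrank ℝ E)) * volume (ball z r0) - volume G) *
      volume G ≤ volume (closedBall (0 : E) ρ) * ENNReal.ofReal (ρ * P) := by
  refine le_trans ?_ (count hΩ hc hb hG hGΩ hP hPLE)
  rw [← setLIntegral_const]
  refine setLIntegral_mono' hG fun x hx => ?_
  rw [tsub_le_iff_right]
  refine (cone hc hD hdist hz (hGΩ hx) h0 h1).trans ?_
  refine (measure_mono (t := (closedBall x ρ ∩ (Ω \ G)) ∪ G) ?_).trans (measure_union_le _ _)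
  rintro y ⟨hy1, hy2⟩
  by_cases hy : y ∈ G
  · exact Or.inr hy
  · exact Or.inl ⟨hy1, hy2, hy⟩

/-- the isoperimetric inequality for small sets -/
lemma iso {Ω : Set E} (hΩ : IsOpen Ω) (hc : Convex ℝ Ω) (hb : Bornology.IsBounded Ω)
    (hne : Ω.Nonempty) {d : ℕ} (hd : Module.finrank ℝ E = d + 1) (hd1 : 1 ≤ d) :
    ∃ c ω : ℝ, 0 < c ∧ 0 < ω ∧ ∀ (G : Set E) (P : ℝ), MeasurableSet G → G ⊆ Ω →
      volume.real G ≤ ω → 0 ≤ P → Pool.Agent.TH703.Cone.PLE Ω G P →
      c * volume.real G ^ ((d : ℝ) / ((d : ℝ) + 1)) ≤ P := by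
  have : ProperSpace E := FiniteDimensional.proper ℝ E
  have hΩfin : volume Ω ≠ ⊤ := hb.measure_lt_top.ne
  obtain ⟨z, hz0⟩ := hne
  obtain ⟨r0, hr0, hz⟩ := Metric.isOpen_iff.1 hΩ z hz0
  obtain ⟨C, hC⟩ := Metric.isBounded_iff.1 hb
  obtain ⟨D, hDdef⟩ : ∃ D : ℝ, D = max C 1 := ⟨_, rfl⟩
  have hD : 0 < D := by rw [hDdef]; exact lt_of_lt_of_le one_pos (le_max_right _ _)
  have hdist : ∀ x ∈ Ω, ∀ y ∈ Ω, dist x y ≤ D := fun x hx y hy => by
    rw [hDdef]
    exact (hC hx hy).trans (le_max_left _ _)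
  obtain ⟨V, hV⟩ : ∃ V : ℝ, V = volume.real (ball z r0) := ⟨_, rfl⟩
  obtain ⟨K, hK⟩ : ∃ K : ℝ, K = volume.real (ball (0 : E) 1) := ⟨_, rfl⟩
  have hVt : volume (ball z r0) ≠ ⊤ := measure_ball_lt_top.ne
  have hKt : volume (ball (0 : E) 1) ≠ ⊤ := measure_ball_lt_top.ne
  have hV0 : 0 < V := by
    rw [hV]
    exact ENNReal.toReal_pos (measure_ball_pos volume z hr0).ne' hVt
  have hK0 : 0 < K := by
    rw [hK]
    exact ENNReal.toReal_pos (measure_ball_pos volume (0 : E) one_pos).ne' hKt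
  have hVe : volume (ball z r0) = ENNReal.ofReal V := by
    rw [hV, Measure.real, ENNReal.ofReal_toReal hVt]
  have hKe : volume (ball (0 : E) 1) = ENNReal.ofReal K := by
    rw [hK, Measure.real, ENNReal.ofReal_toReal hKt]
  obtain ⟨f, hf⟩ : ∃ f : ℝ, f = 1 / ((d : ℝ) + 1) := ⟨_, rfl⟩
  have hd0 : (0 : ℝ) < (d : ℝ) + 1 := by positivity
  have hf0 : 0 < f := by rw [hf]; positivity
  obtain ⟨M, hM⟩ : ∃ M : ℝ, M = D ^ (d + 1) * (2 / V) * K * (D * (2 / V) ^ f) := ⟨_, rfl⟩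
  have hM0 : 0 < M := by
    rw [hM]
    positivity
  refine ⟨1 / M, V / 2, by positivity, by positivity, ?_⟩
  intro G P hG hGΩ hGω hP hPLE
  have hGt : volume G ≠ ⊤ := ne_top_of_le_ne_top hΩfin (measure_mono hGΩ)
  obtain ⟨g, hg⟩ : ∃ g : ℝ, g = volume.real G := ⟨_, rfl⟩
  have hge : volume G = ENNReal.ofReal g := by
    rw [hg, Measure.real, ENNReal.ofReal_toReal hGt]
  rw [← hg] at hGω ⊢
  have hg0 : 0 ≤ g := by rw [hg]; positivity
  have hexp : (d : ℝ) / ((d : ℝ) + 1) ≠ 0 := by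
    have : (0 : ℝ) < d := by exact_mod_cast hd1
    positivity
  rcases hg0.eq_or_lt with hg1 | hg1
  · rw [← hg1, Real.zero_rpow hexp, mul_zero]
    exact hP
  -- the radius
  obtain ⟨ρ, hρ⟩ : ∃ ρ : ℝ, ρ = D * (2 * g / V) ^ f := ⟨_, rfl⟩
  have hq0 : 0 ≤ 2 * g / V := by positivity
  have hq1 : 2 * g / V ≤ 1 := by
    rw [div_le_one hV0]
    linarith
  have hρ0 : 0 ≤ ρ := by rw [hρ]; positivity
  have hρD : ρ ≤ D := by
    rw [hρ]
    have := Real.rpow_le_one hq0 hq1 hf0.le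
    calc D * (2 * g / V) ^ f ≤ D * 1 := mul_le_mul_of_nonneg_left this hD.le
      _ = D := mul_one D
  have hpow : (ρ / D) ^ (d + 1) = 2 * g / V := by
    rw [hρ, mul_div_cancel_left₀ _ hD.ne', ← Real.rpow_natCast, ← Real.rpow_mul hq0, hf]
    push_cast
    rw [one_div_mul_cancel hd0.ne', Real.rpow_one]
  have hb1 := basic hΩ hc hb hG hGΩ hP hPLE hD hdist hz hρ0 hρD
  rw [hd, hpow, hVe, hge, ← ENNReal.ofReal_mul hq0, div_mul_cancel₀ _ hV0.ne',
    ← ENNReal.ofReal_sub _ hg0, ← ENNReal.ofReal_mul (by linarith),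
    Measure.addHaar_closedBall volume (0 : E) hρ0, hd, hKe,
    ← ENNReal.ofReal_mul (by positivity), ← ENNReal.ofReal_mul (by positivity),
    ENNReal.ofReal_le_ofReal_iff (by positivity)] at hb1
  -- `ρ ^ (d + 1) = D ^ (d + 1) * (2 g / V)`
  have hρpow : ρ ^ (d + 1) = D ^ (d + 1) * (2 * g / V) := by
    rw [← hpow, div_pow]
    field_simp
  rw [hρpow] at hb1
  have hb2 : g ≤ D ^ (d + 1) * (2 / V) * K * (ρ * P) := by
    have h3 : g * g ≤ g * (D ^ (d + 1) * (2 / V) * K * (ρ * P)) := by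
      calc g * g = (2 * g - g) * g := by ring
        _ ≤ D ^ (d + 1) * (2 * g / V) * K * (ρ * P) := hb1
        _ = _ := by ring
    exact le_of_mul_le_mul_left h3 hg1
  have hρ2 : ρ = D * (2 / V) ^ f * g ^ f := by
    rw [hρ, show 2 * g / V = (2 / V) * g by ring, Real.mul_rpow (by positivity) hg0]
    ring
  have hsplit : g = g ^ ((d : ℝ) / ((d : ℝ) + 1)) * g ^ f := by
    rw [← Real.rpow_add hg1, hf]
    have : (d : ℝ) / ((d : ℝ) + 1) + 1 / ((d : ℝ) + 1) = 1 := by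
      field_simp
    rw [this, Real.rpow_one]
  have hgf : 0 < g ^ f := Real.rpow_pos_of_pos hg1 f
  have hb3 : g ^ ((d : ℝ) / ((d : ℝ) + 1)) ≤ M * P := by
    have h4 : g ^ ((d : ℝ) / ((d : ℝ) + 1)) * g ^ f ≤ (M * P) * g ^ f := by
      rw [← hsplit]
      refine hb2.trans (le_of_eq ?_)
      rw [hM, hρ2]
      ring
    exact le_of_mul_le_mul_right h4 hgf
  rw [one_div, inv_mul_le_iff₀ hM0]
  exact hb3

end gen

open Pool.Agent.TH304.MI Pool.Agent.TH703.HU

lemma sc_one {b : ℕ} (p : PP b) : sc 1 p = p := by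
  unfold sc
  ext i
  simp

theorem b6 : S_B6 := by
  intro b Ω hΩ hc hb hne
  obtain ⟨c, ω, hc0, hω0, h⟩ := iso (E := PP b) hΩ hc hb hne (d := b + 1)
    (by rw [finrank_euclideanSpace_fin]) (by omega)
  refine ⟨c, ω, hc0, hω0, ?_⟩
  intro G P hG hGΩ hGω hP hPLe
  have h1 := h G P hG hGΩ hGω hP (fun φ hφ => hPLe φ ⟨hφ.c1, hφ.cs, hφ.sub, fun x => by
    rw [sc_one]
    exact hφ.le x⟩)
  have e : (((b + 1 : ℕ) : ℝ)) / (((b + 1 : ℕ) : ℝ) + 1) = ((b : ℝ) + 1) / ((b : ℝ) + 2) := by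
    push_cast
    congr 1
    ring
  rw [e] at h1
  exact h1

end Pool.Agent.TH993.HU
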